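import Pool.Agent.N212.KS.Stm

open Filter Topology

namespace Pool.Agent.N212.KS

universe u v w z

/-- Assembly of project KS from its leaves. -/
theorem main_of_leaves (hLIM : S_LIM) (hRANK : S_RANK.{w, z}) (hBIG : S_BIG.{u, v, w, z})
    (hTR : S_TR.{u, v, w, z}) (hINT : S_INT.{u, v, z}) (hINV : S_INV.{u, w})
    (hCAN : S_CAN.{u, v, w, z}) (hSUM : S_SUM.{u, v, w, z}) (hNN : S_NN.{u, v, w, z})
    (hPOS : S_POS.{u, v, w, z}) (hASY : S_ASY.{u, v, w, z}) (hDEG : S_DEG.{u, v, w, z}) :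
    Main.{u, v, w, z} := by
  intro X N G ι _ _ _ _ _ _ _ _ D P E hs x hx f
  have hsep : Separated E.χ := by
    rcases hs with h | h
    · exact h
    · exact hRANK E.χ E.χ_pos h
  obtain ⟨Z, hZ, hZinv⟩ := hINV (X := X) (G := G) (Good D E.ℓ) (fun Z h => h.1) (hBIG D P E)
    (fun Z Z' h h' => hINT D E.ℓ Z Z' h h') (fun g Z h => hTR D P E g Z h)
  have hcan : ∀ i : ι, ∃ c : X → ℝ,
      (∃ C : ℝ, ∀ y, y ∉ Z → |c y - D.h (E.ℓ i) y| ≤ C * √(D.H y)) ∧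
        ∀ (g : G) (y : X), y ∉ Z → c (g • y) = E.χ i g * c y :=
    fun i => hCAN D P E Z hZ hZinv i (hsep i)
  choose c hc1 hc2 using hcan
  have hC : Canon E Z c := hSUM D P E Z c hZ hc1 hc2
  have hnn := hNN D P E Z c hsep hZinv hC
  -- the point is not in `Z`
  have hxZ : x ∉ Z := by
    intro hxZ
    apply hZ.2.1
    have hsub : MulAction.orbit G x ⊆ Z := by
      rintro _ ⟨g, rfl⟩
      exact (hZinv g x).2 hxZ
    have h1 := hZ.1.closure_subset_iff.2 hsub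
    rw [hx.closure_eq] at h1
    exact Set.eq_univ_of_univ_subset h1
  have hpos := hPOS D P E Z c hsep hZinv hC hnn x hxZ hx
  -- the largest character value
  obtain ⟨i0, hi0⟩ := Finite.exists_max (fun i => E.χ i f)
  refine ⟨E.χ i0 f, ?_, ?_⟩
  · exact ⟨⟨i0, rfl⟩, by rintro _ ⟨j, rfl⟩; exact hi0 j⟩
  have hg : IsGreatest (Set.range fun i => E.χ i f) (E.χ i0 f) :=
    ⟨⟨i0, rfl⟩, by rintro _ ⟨j, rfl⟩; exact hi0 j⟩
  obtain ⟨h1, c', C', hc', hH⟩ := hASY D P E Z c hZinv hC x hxZ hpos f (E.χ i0 f) hg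
  obtain ⟨c'', C'', hc'', hI⟩ := hDEG D P E f (E.χ i0 f) hg
  refine ⟨h1, ?_, ?_, c', C', hc', hH⟩
  · exact hLIM _ _ _ _ (E.χ_pos i0 f) hc'' hI
  · exact hLIM _ _ _ _ (E.χ_pos i0 f) hc' hH

end Pool.Agent.N212.KS
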