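import Mathlib

/-!
# Project KS (helper212), MP_0e7dfd_ag: the Kawaguchi–Silverman conjecture for commutative groups of
automorphisms with common nef eigenclasses

`X` is the set of closed points of a projective variety over the algebraic numbers with the Zariski
topology, `N` its real Néron–Severi space `N¹`.
-/

open Filter Topology

namespace Pool.Agent.N212.KS

/-- The standard facts on Weil heights on a projective variety: `X` = closed points with the Zariski
topology, `N` = numerical classes of real Cartier divisors. Errors are `O(√H)` because heights of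
classes are only defined up to numerical equivalence. -/
structure HeightData (X N : Type*) [TopologicalSpace X] [AddCommGroup N] [Module ℝ N] where
  /-- height of a fixed ample divisor, truncated below at `1` -/
  H : X → ℝ
  one_le_H : ∀ x, 1 ≤ H x
  /-- degree of the field of definition of a point over the base number field -/
  deg : X → ℕ
  /-- Northcott property -/
  northcott : ∀ (D : ℕ) (B : ℝ), {x : X | deg x ≤ D ∧ H x ≤ B}.Finite
  /-- the class of the fixed ample divisor -/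
  θ : N
  /-- a Weil height function for every class -/
  h : N → X → ℝ
  h_theta : ∃ C : ℝ, ∀ x, |h θ x - H x| ≤ C * √(H x)
  h_add : ∀ a b : N, ∃ C : ℝ, ∀ x, |h (a + b) x - (h a x + h b x)| ≤ C * √(H x)
  h_smul : ∀ (r : ℝ) (a : N), ∃ C : ℝ, ∀ x, |h (r • a) x - r * h a x| ≤ C * √(H x)
  h_bound : ∀ a : N, ∃ C : ℝ, ∀ x, |h a x| ≤ C * H x
  /-- the nef classes; their heights are bounded below by `-(ε H) - C_ε` for every `ε > 0` -/
  Nef : Set N
  h_nef : ∀ a ∈ Nef, ∀ ε : ℝ, 0 < ε → ∃ C : ℝ, ∀ x, -(ε * H x) - C ≤ h a x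
  /-- the classes of effective divisors; the height is bounded below off the support -/
  Eff : Set N
  h_eff : ∀ a ∈ Eff, ∃ Z : Set X, IsClosed Z ∧ Z ≠ Set.univ ∧
    ∃ C : ℝ, ∀ x, x ∉ Z → -(C * √(H x)) ≤ h a x
  theta_eff : θ ∈ Eff
  theta_dom : ∀ a : N, ∃ C : ℝ, C • θ - a ∈ Eff
  /-- intersection number with `θ^(dim - 1)` -/
  I : N →ₗ[ℝ] ℝ
  I_eff : ∀ a ∈ Eff, 0 ≤ I a

/-- The standard facts on a commutative group `G` of automorphisms of the variety, acting on the
closed points and, by pull-back, on `N`. -/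
structure AutData {X N : Type*} [TopologicalSpace X] [AddCommGroup N] [Module ℝ N]
    (D : HeightData X N) (G : Type*) [CommGroup G] [MulAction G X] where
  cont : ∀ g : G, Continuous fun x : X => g • x
  closed_fix : ∀ g : G, IsClosed {x : X | g • x = x}
  /-- the iterates of `x` under one automorphism are defined over one number field -/
  deg_pow : ∀ (g : G) (x : X), ∃ B : ℕ, ∀ n : ℕ, D.deg (g ^ n • x) ≤ B
  /-- pull-back of classes -/
  pull : G →* Module.End ℝ N
  /-- the trivial automorphism acts trivially on classes -/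
  pull_triv : ∀ g : G, (∀ x : X, g • x = x) → pull g = 1
  pull_eff : ∀ (g : G) (a : N), a ∈ D.Eff → pull g a ∈ D.Eff
  /-- functoriality of heights -/
  h_pull : ∀ (g : G) (a : N), ∃ C : ℝ, ∀ x, |D.h (pull g a) x - D.h a (g • x)| ≤ C * √(D.H x)

/-- Common nef eigenclasses `ℓ i` of `G` with characters `χ i`, whose sum is big. -/
structure EigenData {X N : Type*} [TopologicalSpace X] [AddCommGroup N] [Module ℝ N]
    {D : HeightData X N} {G : Type*} [CommGroup G] [MulAction G X] (P : AutData D G)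
    (ι : Type*) [Fintype ι] where
  χ : ι → G →* ℝ
  χ_pos : ∀ i g, 0 < χ i g
  ℓ : ι → N
  pull_ℓ : ∀ i g, P.pull g (ℓ i) = χ i g • ℓ i
  nef : ∀ i, ℓ i ∈ D.Nef
  I_pos : ∀ i, 0 < D.I (ℓ i)
  big : ∃ C : ℝ, 0 < C ∧ C • (∑ i, ℓ i) - D.θ ∈ D.Eff

/-- For each `i` some element of `G` expands `ℓ i` and expands no other eigenclass. -/
def Separated {G ι : Type*} [CommGroup G] (χ : ι → G →* ℝ) : Prop :=
  ∀ i, ∃ g : G, 1 < χ i g ∧ ∀ j, j ≠ i → χ j g ≤ 1

/-- There are at least two eigenclasses, and the vectors `(log χ_i(g))_i`, `g ∈ G`, span the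
hyperplane of the vectors with sum zero (or more). -/
def MaximalRank {G ι : Type*} [CommGroup G] [Fintype ι] (χ : ι → G →* ℝ) : Prop :=
  Nontrivial ι ∧ ∀ v : ι → ℝ, ∑ i, v i = 0 →
    v ∈ Submodule.span ℝ (Set.range fun (g : G) (i : ι) => Real.log (χ i g))

/-- `d` is the first dynamical degree of `f`. -/
def DynDegree {X N : Type*} [TopologicalSpace X] [AddCommGroup N] [Module ℝ N]
    {D : HeightData X N} {G : Type*} [CommGroup G] [MulAction G X] (P : AutData D G)
    (f : G) (d : ℝ) : Prop :=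
  Tendsto (fun n : ℕ => (D.I (P.pull (f ^ n) D.θ)) ^ ((1 : ℝ) / n)) atTop (𝓝 d)

/-- `d` is the arithmetic degree of `f` at `x`. -/
def ArithDegree {X N : Type*} [TopologicalSpace X] [AddCommGroup N] [Module ℝ N]
    (D : HeightData X N) {G : Type*} [CommGroup G] [MulAction G X]
    (f : G) (x : X) (d : ℝ) : Prop :=
  Tendsto (fun n : ℕ => (D.H (f ^ n • x)) ^ ((1 : ℝ) / n)) atTop (𝓝 d)

/-- The main statement. -/
def Main.{u, v, w, z} : Prop :=
  ∀ {X : Type u} {N : Type v} {G : Type w} {ι : Type z} [TopologicalSpace X]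
    [TopologicalSpace.NoetherianSpace X] [AddCommGroup N] [Module ℝ N] [CommGroup G]
    [MulAction G X] [Fintype ι] [Nonempty ι]
    (D : HeightData X N) (P : AutData D G) (E : EigenData P ι),
    (Separated E.χ ∨ MaximalRank E.χ) →
    ∀ x : X, Dense (MulAction.orbit G x) → ∀ f : G,
      ∃ d : ℝ, IsGreatest (Set.range fun i => E.χ i f) d ∧ 1 ≤ d ∧
        DynDegree P f d ∧ ArithDegree D f x d ∧
        ∃ c C : ℝ, 0 < c ∧ ∀ n : ℕ, c * d ^ n ≤ D.H (f ^ n • x) ∧ D.H (f ^ n • x) ≤ C * d ^ n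

/-! ## Auxiliary notions for the leaves -/

/-- `Z` is a proper closed subset off which `H ≤ A Σ h(ℓ i) + B`. -/
def Good {X N : Type*} [TopologicalSpace X] [AddCommGroup N] [Module ℝ N]
    (D : HeightData X N) {ι : Type*} [Fintype ι] (ℓ : ι → N) (Z : Set X) : Prop :=
  IsClosed Z ∧ Z ≠ Set.univ ∧
    ∃ A B : ℝ, 0 < A ∧ ∀ x, x ∉ Z → D.H x ≤ A * ∑ i, D.h (ℓ i) x + B

/-- LIM: an `n`-th root limit. -/
def S_LIM : Prop :=
  ∀ (u : ℕ → ℝ) (M c C : ℝ), 0 < M → 0 < c → (∀ n, c * M ^ n ≤ u n ∧ u n ≤ C * M ^ n) →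
    Tendsto (fun n : ℕ => (u n) ^ ((1 : ℝ) / n)) atTop (𝓝 M)

/-- RANK: maximal rank gives separated characters. -/
def S_RANK.{w, z} : Prop :=
  ∀ {G : Type w} {ι : Type z} [CommGroup G] [Fintype ι] (χ : ι → G →* ℝ),
    (∀ i g, 0 < χ i g) → MaximalRank χ → Separated χ

/-- BIG: off a proper closed subset the ample height is bounded by the eigenheights. -/
def S_BIG.{u, v, w, z} : Prop :=
  ∀ {X : Type u} {N : Type v} {G : Type w} {ι : Type z} [TopologicalSpace X]
    [AddCommGroup N] [Module ℝ N] [CommGroup G] [MulAction G X] [Fintype ι]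
    (D : HeightData X N) (P : AutData D G) (E : EigenData P ι), ∃ Z : Set X, Good D E.ℓ Z

/-- TR: good sets can be moved by the group. -/
def S_TR.{u, v, w, z} : Prop :=
  ∀ {X : Type u} {N : Type v} {G : Type w} {ι : Type z} [TopologicalSpace X]
    [AddCommGroup N] [Module ℝ N] [CommGroup G] [MulAction G X] [Fintype ι] [Nonempty ι]
    (D : HeightData X N) (P : AutData D G) (E : EigenData P ι) (g : G) (Z : Set X),
    Good D E.ℓ Z → Good D E.ℓ {x | g⁻¹ • x ∈ Z}

/-- INT: intersections of good sets are good. -/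
def S_INT.{u, v, z} : Prop :=
  ∀ {X : Type u} {N : Type v} {ι : Type z} [TopologicalSpace X]
    [AddCommGroup N] [Module ℝ N] [Fintype ι]
    (D : HeightData X N) (ℓ : ι → N) (Z Z' : Set X), Good D ℓ Z → Good D ℓ Z' → Good D ℓ (Z ∩ Z')

/-- INV: in a Noetherian space a family of closed sets which is stable under intersections and
under the group has an invariant member. -/
def S_INV.{u, w} : Prop :=
  ∀ {X : Type u} {G : Type w} [TopologicalSpace X] [TopologicalSpace.NoetherianSpace X]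
    [CommGroup G] [MulAction G X] (F : Set X → Prop),
    (∀ Z, F Z → IsClosed Z) → (∃ Z, F Z) → (∀ Z Z', F Z → F Z' → F (Z ∩ Z')) →
    (∀ (g : G) Z, F Z → F {x | g⁻¹ • x ∈ Z}) →
    ∃ Z, F Z ∧ ∀ (g : G) (x : X), g • x ∈ Z ↔ x ∈ Z

/-- GROW: growth of the heights along an orbit, for sequences, with a uniform constant. -/
def S_GROW.{z} : Prop :=
  ∀ {ι : Type z} [Fintype ι] (κ : ι → ℝ) (A B C lam mu : ℝ), 0 < A → 0 ≤ C →
    (∀ i, 0 < κ i ∧ κ i ≤ lam) → 1 ≤ lam → lam < mu →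
    ∃ K : ℝ, 0 < K ∧ ∀ (M : ℕ → ℝ) (a : ι → ℕ → ℝ), (∀ n, 1 ≤ M n) →
      (∀ i n, |a i (n + 1) - κ i * a i n| ≤ C * √(M n)) → (∀ i, |a i 0| ≤ C * M 0) →
      (∀ n, M n ≤ A * ∑ i, a i n + B) → ∀ n, M n ≤ K * mu ^ n * M 0

/-- CANS: the canonical limit, for sequences, with a uniform constant. -/
def S_CANS : Prop :=
  ∀ (C K lam mu : ℝ), 0 ≤ C → 0 < K → 0 < lam → 0 < mu → mu < lam ^ 2 →
    ∃ C' : ℝ, ∀ (M a : ℕ → ℝ), (∀ n, 1 ≤ M n) → (∀ n, |a (n + 1) - lam * a n| ≤ C * √(M n)) →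
      (∀ n, M n ≤ K * mu ^ n * M 0) →
      ∃ L : ℝ, Tendsto (fun n : ℕ => a n / lam ^ n) atTop (𝓝 L) ∧ |L - a 0| ≤ C' * √(M 0)

/-- CAN: canonical heights off an invariant good set. -/
def S_CAN.{u, v, w, z} : Prop :=
  ∀ {X : Type u} {N : Type v} {G : Type w} {ι : Type z} [TopologicalSpace X]
    [AddCommGroup N] [Module ℝ N] [CommGroup G] [MulAction G X] [Fintype ι]
    (D : HeightData X N) (P : AutData D G) (E : EigenData P ι) (Z : Set X),
    Good D E.ℓ Z → (∀ (g : G) (x : X), g • x ∈ Z ↔ x ∈ Z) →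
    ∀ i : ι, (∃ g : G, 1 < E.χ i g ∧ ∀ j, j ≠ i → E.χ j g ≤ 1) →
      ∃ c : X → ℝ, (∃ C : ℝ, ∀ y, y ∉ Z → |c y - D.h (E.ℓ i) y| ≤ C * √(D.H y)) ∧
        ∀ (g : G) (y : X), y ∉ Z → c (g • y) = E.χ i g * c y

/-- `c i` are canonical heights off `Z`. -/
def Canon {X N : Type*} [TopologicalSpace X] [AddCommGroup N] [Module ℝ N]
    {D : HeightData X N} {G : Type*} [CommGroup G] [MulAction G X] {P : AutData D G}
    {ι : Type*} [Fintype ι] (E : EigenData P ι) (Z : Set X) (c : ι → X → ℝ) : Prop :=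
  (∃ C : ℝ, ∀ i y, y ∉ Z → |c i y - D.h (E.ℓ i) y| ≤ C * √(D.H y)) ∧
    (∀ (i : ι) (g : G) (y : X), y ∉ Z → c i (g • y) = E.χ i g * c i y) ∧
    ∃ A B : ℝ, 0 < A ∧ ∀ y, y ∉ Z → D.H y ≤ A * ∑ i, c i y + B

/-- SUM: the ample height is bounded by the canonical heights. -/
def S_SUM.{u, v, w, z} : Prop :=
  ∀ {X : Type u} {N : Type v} {G : Type w} {ι : Type z} [TopologicalSpace X]
    [AddCommGroup N] [Module ℝ N] [CommGroup G] [MulAction G X] [Fintype ι]
    (D : HeightData X N) (P : AutData D G) (E : EigenData P ι) (Z : Set X) (c : ι → X → ℝ),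
    Good D E.ℓ Z → (∀ i, ∃ C : ℝ, ∀ y, y ∉ Z → |c i y - D.h (E.ℓ i) y| ≤ C * √(D.H y)) →
    (∀ (i : ι) (g : G) (y : X), y ∉ Z → c i (g • y) = E.χ i g * c i y) → Canon E Z c

/-- NN: canonical heights are non-negative. -/
def S_NN.{u, v, w, z} : Prop :=
  ∀ {X : Type u} {N : Type v} {G : Type w} {ι : Type z} [TopologicalSpace X]
    [AddCommGroup N] [Module ℝ N] [CommGroup G] [MulAction G X] [Fintype ι]
    (D : HeightData X N) (P : AutData D G) (E : EigenData P ι) (Z : Set X) (c : ι → X → ℝ),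
    Separated E.χ → (∀ (g : G) (x : X), g • x ∈ Z ↔ x ∈ Z) → Canon E Z c →
    ∀ i y, y ∉ Z → 0 ≤ c i y

/-- PER: a point whose forward orbit under `g` has bounded height is periodic. -/
def S_PER.{u, v, w} : Prop :=
  ∀ {X : Type u} {N : Type v} {G : Type w} [TopologicalSpace X]
    [AddCommGroup N] [Module ℝ N] [CommGroup G] [MulAction G X]
    (D : HeightData X N) (_P : AutData D G) (g : G) (x : X) (B : ℝ),
    (∀ n : ℕ, D.H (g ^ n • x) ≤ B) → ∃ m : ℕ, 0 < m ∧ g ^ m • x = x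

/-- POS: canonical heights are positive at points with dense orbit. -/
def S_POS.{u, v, w, z} : Prop :=
  ∀ {X : Type u} {N : Type v} {G : Type w} {ι : Type z} [TopologicalSpace X]
    [AddCommGroup N] [Module ℝ N] [CommGroup G] [MulAction G X] [Fintype ι]
    (D : HeightData X N) (P : AutData D G) (E : EigenData P ι) (Z : Set X) (c : ι → X → ℝ),
    Separated E.χ → (∀ (g : G) (x : X), g • x ∈ Z ↔ x ∈ Z) → Canon E Z c →
    (∀ i y, y ∉ Z → 0 ≤ c i y) →
    ∀ x : X, x ∉ Z → Dense (MulAction.orbit G x) → ∀ i, 0 < c i x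

/-- ASY: growth of the ample height along orbits. -/
def S_ASY.{u, v, w, z} : Prop :=
  ∀ {X : Type u} {N : Type v} {G : Type w} {ι : Type z} [TopologicalSpace X]
    [AddCommGroup N] [Module ℝ N] [CommGroup G] [MulAction G X] [Fintype ι]
    (D : HeightData X N) (P : AutData D G) (E : EigenData P ι) (Z : Set X) (c : ι → X → ℝ),
    (∀ (g : G) (x : X), g • x ∈ Z ↔ x ∈ Z) → Canon E Z c →
    ∀ x : X, x ∉ Z → (∀ i, 0 < c i x) → ∀ (f : G) (d : ℝ),
      IsGreatest (Set.range fun i => E.χ i f) d →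
      1 ≤ d ∧ ∃ c' C : ℝ, 0 < c' ∧
        ∀ n : ℕ, c' * d ^ n ≤ D.H (f ^ n • x) ∧ D.H (f ^ n • x) ≤ C * d ^ n

/-- DEG: growth of the degrees. -/
def S_DEG.{u, v, w, z} : Prop :=
  ∀ {X : Type u} {N : Type v} {G : Type w} {ι : Type z} [TopologicalSpace X]
    [AddCommGroup N] [Module ℝ N] [CommGroup G] [MulAction G X] [Fintype ι]
    (D : HeightData X N) (P : AutData D G) (E : EigenData P ι) (f : G) (d : ℝ),
    IsGreatest (Set.range fun i => E.χ i f) d →
      ∃ c C : ℝ, 0 < c ∧ ∀ n : ℕ, c * d ^ n ≤ D.I (P.pull (f ^ n) D.θ) ∧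
        D.I (P.pull (f ^ n) D.θ) ≤ C * d ^ n

end Pool.Agent.N212.KS
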